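import Pool.Agent.helper83.SC.Stmt

/-!
SC project, module MO: smooth convex approximations of a convex function (mollification).
-/

open scoped Pointwise ContDiff Convolution
open MeasureTheory Set Filter Topology

namespace Pool.Agent.helper83.SC

/-- A fixed bump of radius `1 / (k + 1)`. -/
noncomputable def MO_bump (m k : ℕ) : ContDiffBump (0 : E m) where
  rIn := 1 / (2 * ((k : ℝ) + 1))
  rOut := 1 / ((k : ℝ) + 1)
  rIn_pos := by positivity
  rIn_lt_rOut := by
    have : (0 : ℝ) < (k : ℝ) + 1 := by positivity
    rw [div_lt_div_iff₀ (by positivity) this]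
    nlinarith

/-- The mollification. -/
noncomputable def MO_moll {m : ℕ} (f : E m → ℝ) (k : ℕ) : E m → ℝ :=
  ((MO_bump m k).normed volume ⋆[ContinuousLinearMap.lsmul ℝ ℝ, volume] f)

theorem MO_eq {m : ℕ} (f : E m → ℝ) (k : ℕ) (x : E m) :
    MO_moll f k x = ∫ t, (MO_bump m k).normed volume t * f (x - t) := rfl

theorem MO_cont {m : ℕ} {f : E m → ℝ} (hf : CV f) : Continuous f :=
  (ConvexOn.locallyLipschitz hf).continuous

theorem MO_smooth {m : ℕ} {f : E m → ℝ} (hf : CV f) (k : ℕ) : ContDiff ℝ ∞ (MO_moll f k) :=
  (MO_bump m k).hasCompactSupport_normed.contDiff_convolution_left _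
    (MO_bump m k).contDiff_normed (MO_cont hf).locallyIntegrable

theorem MO_int {m : ℕ} {f : E m → ℝ} (hf : CV f) (k : ℕ) (x : E m) :
    Integrable (fun t => (MO_bump m k).normed volume t * f (x - t)) := by
  refine Continuous.integrable_of_hasCompactSupport ?_ ?_
  · exact (MO_bump m k).continuous_normed.mul ((MO_cont hf).comp (continuous_const.sub continuous_id))
  · exact (MO_bump m k).hasCompactSupport_normed.mul_right

theorem MO_convex {m : ℕ} {f : E m → ℝ} (hf : CV f) (k : ℕ) : CV (MO_moll f k) := by
  refine ⟨convex_univ, ?_⟩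
  intro x _ y _ a b ha hb hab
  rw [MO_eq, MO_eq, MO_eq]
  have h1 : a • (∫ t, (MO_bump m k).normed volume t * f (x - t))
      + b • (∫ t, (MO_bump m k).normed volume t * f (y - t))
      = ∫ t, (a * ((MO_bump m k).normed volume t * f (x - t))
        + b * ((MO_bump m k).normed volume t * f (y - t))) := by
    rw [integral_add ((MO_int hf k x).const_mul a) ((MO_int hf k y).const_mul b),
      integral_const_mul, integral_const_mul]
    rfl
  rw [h1]
  refine integral_mono (MO_int hf k _)
    (((MO_int hf k x).const_mul a).add ((MO_int hf k y).const_mul b)) ?_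
  intro t
  simp only
  have h2 := hf.2 (mem_univ (x - t)) (mem_univ (y - t)) ha hb hab
  have h3 : a • (x - t) + b • (y - t) = a • x + b • y - t := by
    have : t = a • t + b • t := by rw [← add_smul, hab, one_smul]
    conv_rhs => rw [this]
    simp only [smul_sub]
    abel
  rw [h3] at h2
  have h4 := mul_le_mul_of_nonneg_left h2 ((MO_bump m k).nonneg_normed (μ := volume) t)
  simp only [smul_eq_mul] at h4
  linarith

theorem MO_tendsto {m : ℕ} {f : E m → ℝ} (hf : CV f) (x : E m) :
    Tendsto (fun k => MO_moll f k x) atTop (𝓝 (f x)) := by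
  refine ContDiffBump.convolution_tendsto_right_of_continuous ?_ (MO_cont hf) x
  exact tendsto_one_div_add_atTop_nhds_zero_nat

theorem exists_smooth_of : exists_smooth_stmt := by
  intro m f hf
  exact ⟨MO_moll f, fun k => ⟨MO_smooth hf k, MO_convex hf k⟩, fun x => MO_tendsto hf x⟩

end Pool.Agent.helper83.SC
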